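import Pool.Agent.R498.MP.PU9
import Pool.Agent.Helper32K9.Str.Prop

/-!
# Strings of consecutive primes with almost prime values: a positive proportion of the patterns,
uniformly in the polynomial

From the starting library: `R498.MP.stringsUR` and the double counting lemma of `Helper32K9.Str`.
-/

set_option autoImplicit false

namespace Pool.Agent.U163.SU

open Finset Filter Polynomial Pool.Agent.R498.MP

/-- The integers `n` with `N < n`, `n + max H ≤ 2 N`, such that the primes in `[n, n + max H]` are exactly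
the numbers `n + h`, `h ∈ H`, all of them are `≡ a` modulo `q`, and the values `f (n + h)` are not zero and
have at most `r` prime factors, all at least `N ^ δ`. -/
def places (f : ℤ[X]) (N q a r : ℕ) (δ : ℝ) (H : Finset ℕ) : Set ℕ :=
  {n | N < n ∧ n + H.sup id ≤ 2 * N ∧ (∀ y ≤ H.sup id, (n + y).Prime ↔ y ∈ H) ∧
    ∀ h ∈ H, n + h ≡ a [MOD q] ∧ APZ r ((N : ℝ) ^ δ) (f.eval ((n + h : ℕ) : ℤ))}

theorem places_finite (f : ℤ[X]) (N q a r : ℕ) (δ : ℝ) (H : Finset ℕ) :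
    (places f N q a r δ H).Finite :=
  (Set.finite_Iic (2 * N)).subset fun n hn => by
    have h1 : n + H.sup id ≤ 2 * N := hn.2.1
    rw [Set.mem_Iic]
    omega

/-- **A positive proportion of the patterns, uniformly in the polynomial.** -/
theorem uni (D q : ℕ) (hq : Squarefree q) (m : ℕ) (hm : 1 ≤ m) :
    ∃ (C B : ℕ) (δ : ℝ), 0 < C ∧ 0 < δ ∧ ∀ A : ℕ, ∃ r : ℕ, ∀ T : Finset ℕ, C ≤ T.card →
      ∀ᶠ N : ℕ in atTop, ∀ f : ℤ[X], f.natDegree ≤ D →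
      (∀ p : ℕ, p.Prime → ∃ n : ℤ, ¬ (p : ℤ) ∣ n * f.eval n) →
      (∀ x : ℤ, |x| ≤ 2 * N → |f.eval x| ≤ (N : ℤ) ^ A) →
      (∀ x : ℤ, x ≠ 0 → |x| ≤ T.sup id → f.eval x ≠ 0) →
      ∀ a : ℕ, (∀ p : ℕ, p.Prime → p ∣ q → ¬ (p : ℤ) ∣ (a : ℤ) * f.eval (a : ℤ)) →
      T.card.choose m ≤ C * {H : Finset ℕ | H ⊆ T ∧ H.card = m ∧
        (N : ℝ) / Real.log N ^ B ≤ (places f N q a r δ H).ncard}.ncard := by
  classical
  obtain ⟨K, B, δ, hδ, hmain⟩ := stringsUR D q hq m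
  obtain ⟨K', hK'⟩ : ∃ K', K' = max K m := ⟨_, rfl⟩
  have hKK' : K ≤ K' := by omega
  have hmK' : m ≤ K' := by omega
  refine ⟨max K' (K'.choose m), B, δ, by omega, hδ, fun A => ?_⟩
  obtain ⟨r, hr⟩ := hmain A
  refine ⟨r, fun T hT => ?_⟩
  have h2 : ∀ᶠ N : ℕ in atTop, ∀ S ∈ T.powerset.filter (fun S => K ≤ S.card),
      ∀ f : ℤ[X], f.natDegree ≤ D →
      (∀ p : ℕ, p.Prime → ∃ n : ℤ, ¬ (p : ℤ) ∣ n * f.eval n) →
      (∀ x : ℤ, |x| ≤ 2 * N → |f.eval x| ≤ (N : ℤ) ^ A) →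
      (∀ x : ℤ, x ≠ 0 → |x| ≤ S.sup id → f.eval x ≠ 0) →
      ∀ a : ℕ, (∀ p : ℕ, p.Prime → p ∣ q → ¬ (p : ℤ) ∣ (a : ℤ) * f.eval (a : ℤ)) →
      ∃ H ⊆ S, m ≤ H.card ∧ ∃ T : Finset ℕ, (N : ℝ) ≤ Real.log N ^ B * T.card ∧
        ∀ n ∈ T, N < n ∧ n + S.sup id ≤ 2 * N ∧ (∀ y ≤ S.sup id, (n + y).Prime ↔ y ∈ H) ∧
          ∀ h ∈ H, n + h ≡ a [MOD q] ∧ APZ r ((N : ℝ) ^ δ) (f.eval ((n + h : ℕ) : ℤ)) := by
    rw [Filter.eventually_all_finset]
    intro S hS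
    exact hr S (Finset.mem_filter.1 hS).2
  filter_upwards [h2, eventually_gt_atTop 3] with N hN hN3
  intro f hD hadm hfA hz a ha
  have hlog : 0 < Real.log N := Real.log_pos (by exact_mod_cast (by omega : 1 < N))
  have key := Pool.Agent.Helper32K9.Str.proportion hm hmK' T ((le_max_left _ _).trans hT)
    (fun H => ∃ S ⊆ T, H ⊆ S ∧ ∃ T : Finset ℕ, (N : ℝ) ≤ Real.log N ^ B * T.card ∧
        ∀ n ∈ T, N < n ∧ n + S.sup id ≤ 2 * N ∧ (∀ y ≤ S.sup id, (n + y).Prime ↔ y ∈ H) ∧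
          ∀ h ∈ H, n + h ≡ a [MOD q] ∧ APZ r ((N : ℝ) ^ δ) (f.eval ((n + h : ℕ) : ℤ)))
    (fun H => (N : ℝ) / Real.log N ^ B ≤ (places f N q a r δ H).ncard) ?_ ?_
  · exact key.trans (Nat.mul_le_mul_right _ (le_max_right _ _))
  · intro S hS hSK
    have hsup : S.sup id ≤ T.sup id := Finset.sup_mono hS
    obtain ⟨H, h3, h4, h5⟩ := hN S (Finset.mem_filter.2 ⟨Finset.mem_powerset.2 hS, by omega⟩) f hD
      hadm hfA (fun x hx0 hx => hz x hx0 (hx.trans (by exact_mod_cast hsup))) a ha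
    exact ⟨H, h3, h4, S, hS, h3, h5⟩
  · rintro H H' ⟨S, hS, hHS, U, h4, h5⟩ hH' hcard hy
    have h7 : H'.sup id ≤ S.sup id := Finset.sup_mono (hH'.trans hHS)
    have hsub : (U : Set ℕ) ⊆ places f N q a r δ H' := by
      intro n hn
      obtain ⟨g1, g2, g3, g4⟩ := h5 n (Finset.mem_coe.1 hn)
      refine ⟨g1, by omega, fun y hys => ⟨fun hp => ?_, fun hyH => (g3 y (by omega)).2 (hH' hyH)⟩,
        fun h hh => g4 h (hH' hh)⟩
      exact hy y ((g3 y (by omega)).1 hp) hys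
    have h8 : U.card ≤ (places f N q a r δ H').ncard := by
      rw [← Set.ncard_coe_finset U]
      exact Set.ncard_le_ncard hsub (places_finite f N q a r δ H')
    have h9 : (U.card : ℝ) ≤ (places f N q a r δ H').ncard := by exact_mod_cast h8
    rw [div_le_iff₀ (by positivity)]
    nlinarith [pow_pos hlog B]

/-- `n` has at most `r` prime factors, counted with multiplicity, all of them at least `w`. -/
def AlmostPrime (r : ℕ) (w : ℝ) (n : ℕ) : Prop :=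
  n.primeFactorsList.length ≤ r ∧ ∀ q : ℕ, q.Prime → q ∣ n → w ≤ q

/-- Every factor of an almost prime value is almost prime. -/
theorem almost_of_dvd {r : ℕ} {w : ℝ} {n : ℤ} (h : APZ r w n) {k : ℕ} (hk : (k : ℤ) ∣ n) :
    AlmostPrime r w k := by
  obtain ⟨h0, h1, h2⟩ := h
  have hk' : k ∣ n.natAbs := Int.natCast_dvd.1 hk
  refine ⟨(Nat.primeFactorsList_sublist_of_dvd hk' (Int.natAbs_ne_zero.2 h0)).length_le.trans h1,
    fun q hq hqk => h2 q hq ((Int.natCast_dvd_natCast.2 hqk).trans hk)⟩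

/-- The same for a family of polynomials: the integers `n` with `N < n`, `n + max H ≤ 2 N`, such that the
primes in `[n, n + max H]` are exactly the numbers `n + h`, `h ∈ H`, all of them are `≡ a` modulo `q`, and
all the values `|f i (n + h)|` are almost primes. -/
def placesP {s : ℕ} (f : Fin s → ℤ[X]) (N q a r : ℕ) (δ : ℝ) (H : Finset ℕ) : Set ℕ :=
  {n | N < n ∧ n + H.sup id ≤ 2 * N ∧ (∀ y ≤ H.sup id, (n + y).Prime ↔ y ∈ H) ∧
    ∀ h ∈ H, n + h ≡ a [MOD q] ∧ ∀ i, (f i).eval ((n + h : ℕ) : ℤ) ≠ 0 ∧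
      AlmostPrime r ((N : ℝ) ^ δ) ((f i).eval ((n + h : ℕ) : ℤ)).natAbs}

/-- **Families of polynomials.** -/
theorem uni_prod (s D q : ℕ) (hq : Squarefree q) (m : ℕ) (hm : 1 ≤ m) :
    ∃ (C B : ℕ) (δ : ℝ), 0 < C ∧ 0 < δ ∧ ∀ A : ℕ, ∃ r : ℕ, ∀ T : Finset ℕ, C ≤ T.card →
      ∀ᶠ N : ℕ in atTop, ∀ f : Fin s → ℤ[X], (∀ i, (f i).natDegree ≤ D) →
      (∀ p : ℕ, p.Prime → ∃ n : ℤ, ¬ (p : ℤ) ∣ n ∧ ∀ i, ¬ (p : ℤ) ∣ (f i).eval n) →
      (∀ i, ∀ x : ℤ, |x| ≤ 2 * N → |(f i).eval x| ≤ (N : ℤ) ^ A) →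
      (∀ i, ∀ x : ℤ, x ≠ 0 → |x| ≤ T.sup id → (f i).eval x ≠ 0) →
      ∀ a : ℕ, (∀ p : ℕ, p.Prime → p ∣ q → ¬ (p : ℤ) ∣ (a : ℤ) ∧
        ∀ i, ¬ (p : ℤ) ∣ (f i).eval (a : ℤ)) →
      T.card.choose m ≤ C * {H : Finset ℕ | H ⊆ T ∧ H.card = m ∧
        (N : ℝ) / Real.log N ^ B ≤ (placesP f N q a r δ H).ncard}.ncard := by
  classical
  obtain ⟨C, B, δ, hC, hδ, hmain⟩ := uni (s * D) q hq m hm
  refine ⟨C, B, δ, hC, hδ, fun A => ?_⟩
  obtain ⟨r, hr⟩ := hmain (s * A)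
  refine ⟨r, fun T hT => ?_⟩
  filter_upwards [hr T hT] with N hN
  intro f hD hadm hA hz a ha
  have heval : ∀ x : ℤ, (∏ i, f i).eval x = ∏ i, (f i).eval x := fun x => eval_prod _ _ _
  refine (hN (∏ i, f i) ?_ ?_ ?_ ?_ a ?_).trans (Nat.mul_le_mul_left _ ?_)
  · refine (natDegree_prod_le _ _).trans ?_
    refine (Finset.sum_le_sum fun i _ => hD i).trans ?_
    rw [Finset.sum_const, Finset.card_univ, Fintype.card_fin, smul_eq_mul]
  · intro p hp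
    obtain ⟨n, hn, hn'⟩ := hadm p hp
    have hpZ := Nat.prime_iff_prime_int.1 hp
    refine ⟨n, fun h => ?_⟩
    rw [heval] at h
    rcases hpZ.dvd_or_dvd h with h1 | h1
    · exact hn h1
    · obtain ⟨i, -, h2⟩ := (hpZ.dvd_finsetProd_iff _).1 h1
      exact hn' i h2
  · intro x hx
    rw [heval, Finset.abs_prod]
    calc ∏ i, |(f i).eval x| ≤ ∏ _i : Fin s, (N : ℤ) ^ A :=
          Finset.prod_le_prod (fun _ _ => abs_nonneg _) fun i _ => hA i x hx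
      _ = (N : ℤ) ^ (s * A) := by
          rw [Finset.prod_const, Finset.card_univ, Fintype.card_fin, ← pow_mul, mul_comm]
  · intro x hx0 hx
    rw [heval]
    exact Finset.prod_ne_zero_iff.2 fun i _ => hz i x hx0 hx
  · intro p hp hpq h
    obtain ⟨h0, h0'⟩ := ha p hp hpq
    have hpZ := Nat.prime_iff_prime_int.1 hp
    rw [heval] at h
    rcases hpZ.dvd_or_dvd h with h1 | h1
    · exact h0 h1
    · obtain ⟨i, -, h2⟩ := (hpZ.dvd_finsetProd_iff _).1 h1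
      exact h0' i h2
  · have hfin : ∀ P : Finset ℕ → Prop, {H : Finset ℕ | H ⊆ T ∧ H.card = m ∧ P H}.Finite := by
      intro P
      apply (T.powersetCard m).finite_toSet.subset
      rintro H ⟨h1, h2, -⟩
      exact Finset.mem_coe.2 (Finset.mem_powersetCard.2 ⟨h1, h2⟩)
    apply Set.ncard_le_ncard _ (hfin _)
    rintro H ⟨h1, h2, h3⟩
    refine ⟨h1, h2, h3.trans ?_⟩
    have hfin2 : (placesP f N q a r δ H).Finite :=
      (Set.finite_Iic (2 * N)).subset fun n hn => by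
        have h1 : n + H.sup id ≤ 2 * N := hn.2.1
        rw [Set.mem_Iic]
        omega
    apply Nat.cast_le.2
    apply Set.ncard_le_ncard _ hfin2
    rintro n ⟨g1, g2, g3, g4⟩
    refine ⟨g1, g2, g3, fun h hh => ⟨(g4 h hh).1, fun i => ?_⟩⟩
    have h5 := (g4 h hh).2
    have hdvd : (f i).eval ((n + h : ℕ) : ℤ) ∣ (∏ i, f i).eval ((n + h : ℕ) : ℤ) := by
      rw [heval]
      exact Finset.dvd_prod_of_mem (fun i => (f i).eval ((n + h : ℕ) : ℤ)) (Finset.mem_univ i)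
    refine ⟨fun h0 => h5.1 ?_, almost_of_dvd h5 ?_⟩
    · rw [h0] at hdvd
      exact zero_dvd_iff.1 hdvd
    · exact (Int.natAbs_dvd.2 hdvd)

/-- A polynomial bound. -/
theorem quad_le {N A : ℕ} (hN : 3 ≤ N) {z c d : ℤ} (hc : 0 ≤ c) (hd : 0 ≤ d) (hcA : c ≤ (N : ℤ) ^ A)
    (hdA : d ≤ (N : ℤ) ^ A) (hz : |z| ≤ c * (2 * N) + d) : |z| ≤ (N : ℤ) ^ (A + 3) := by
  have h1 : (1 : ℤ) ≤ (N : ℤ) ^ A := one_le_pow₀ (by exact_mod_cast (by omega : 1 ≤ N))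
  have h4 : (3 : ℤ) ≤ N := by exact_mod_cast hN
  have h5 : (2 : ℤ) * N + 1 ≤ (N : ℤ) ^ 3 := by nlinarith [sq_nonneg ((N : ℤ) - 3)]
  calc |z| ≤ c * (2 * N) + d := hz
    _ ≤ (N : ℤ) ^ A * (2 * N) + (N : ℤ) ^ A := by gcongr
    _ = (N : ℤ) ^ A * (2 * N + 1) := by ring
    _ ≤ (N : ℤ) ^ A * (N : ℤ) ^ 3 := by gcongr
    _ = (N : ℤ) ^ (A + 3) := by rw [pow_add]

end Pool.Agent.U163.SU
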