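import Pool.Agent.U163.SU.Uni
import Pool.Agent.R498.MP.PU8

/-!
# Clusters of primes with almost prime values: a positive proportion of the patterns, uniformly in the
polynomials

The version without the condition on the small zeros of the polynomials, in which the primes are not
asked to be consecutive. From the starting library: `R498.MP.stringsU` and the double counting lemma of
`Helper32K9.Str`.
-/

set_option autoImplicit false

namespace Pool.Agent.U163.SU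

open Finset Filter Polynomial Pool.Agent.R498.MP

/-- The integers `n` with `N < n`, `n + max H ≤ 2 N`, such that all the numbers `n + h`, `h ∈ H`, are primes
`≡ a` modulo `q`, and all the values `|f i (n + h)|` are almost primes. -/
def clusters {s : ℕ} (f : Fin s → ℤ[X]) (N q a r : ℕ) (δ : ℝ) (H : Finset ℕ) : Set ℕ :=
  {n | N < n ∧ n + H.sup id ≤ 2 * N ∧
    ∀ h ∈ H, (n + h).Prime ∧ n + h ≡ a [MOD q] ∧ ∀ i, (f i).eval ((n + h : ℕ) : ℤ) ≠ 0 ∧
      AlmostPrime r ((N : ℝ) ^ δ) ((f i).eval ((n + h : ℕ) : ℤ)).natAbs}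

theorem clusters_finite {s : ℕ} (f : Fin s → ℤ[X]) (N q a r : ℕ) (δ : ℝ) (H : Finset ℕ) :
    (clusters f N q a r δ H).Finite :=
  (Set.finite_Iic (2 * N)).subset fun n hn => by
    have h1 : n + H.sup id ≤ 2 * N := hn.2.1
    rw [Set.mem_Iic]
    omega

/-- **Clusters of primes for families of polynomials.** -/
theorem uniU_prod (s D q : ℕ) (hq : Squarefree q) (m : ℕ) (hm : 1 ≤ m) :
    ∃ (C B : ℕ) (δ : ℝ), 0 < C ∧ 0 < δ ∧ ∀ A : ℕ, ∃ r : ℕ, ∀ T : Finset ℕ, C ≤ T.card →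
      ∀ᶠ N : ℕ in atTop, ∀ f : Fin s → ℤ[X], (∀ i, (f i).natDegree ≤ D) →
      (∀ p : ℕ, p.Prime → ∃ n : ℤ, ¬ (p : ℤ) ∣ n ∧ ∀ i, ¬ (p : ℤ) ∣ (f i).eval n) →
      (∀ i, ∀ x : ℤ, |x| ≤ 2 * N → |(f i).eval x| ≤ (N : ℤ) ^ A) →
      ∀ a : ℕ, (∀ p : ℕ, p.Prime → p ∣ q → ¬ (p : ℤ) ∣ (a : ℤ) ∧
        ∀ i, ¬ (p : ℤ) ∣ (f i).eval (a : ℤ)) →
      T.card.choose m ≤ C * {H : Finset ℕ | H ⊆ T ∧ H.card = m ∧
        (N : ℝ) / Real.log N ^ B ≤ (clusters f N q a r δ H).ncard}.ncard := by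
  classical
  obtain ⟨K, B, δ, hδ, hmain⟩ := stringsU (s * D) q hq m
  obtain ⟨K', hK'⟩ : ∃ K', K' = max K m := ⟨_, rfl⟩
  have hKK' : K ≤ K' := by omega
  have hmK' : m ≤ K' := by omega
  refine ⟨max K' (K'.choose m), B, δ, by omega, hδ, fun A => ?_⟩
  obtain ⟨r, hr⟩ := hmain (s * A)
  refine ⟨r, fun T hT => ?_⟩
  have h2 : ∀ᶠ N : ℕ in atTop, ∀ S ∈ T.powerset.filter (fun S => K ≤ S.card),
      ∀ f : ℤ[X], f.natDegree ≤ s * D →
      (∀ p : ℕ, p.Prime → ∃ n : ℤ, ¬ (p : ℤ) ∣ n * f.eval n) →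
      (∀ x : ℤ, |x| ≤ 2 * N → |f.eval x| ≤ (N : ℤ) ^ (s * A)) →
      ∀ a : ℕ, (∀ p : ℕ, p.Prime → p ∣ q → ¬ (p : ℤ) ∣ (a : ℤ) * f.eval (a : ℤ)) →
      ∃ H ⊆ S, m ≤ H.card ∧ ∃ T : Finset ℕ, (N : ℝ) ≤ Real.log N ^ B * T.card ∧
        ∀ n ∈ T, N < n ∧ n + S.sup id ≤ 2 * N ∧
          (∀ h ∈ H, (n + h).Prime ∧ n + h ≡ a [MOD q] ∧
            APZ r ((N : ℝ) ^ δ) (f.eval ((n + h : ℕ) : ℤ))) ∧
          ∀ y ≤ S.sup id, y ∉ H → (∀ h ∈ S, h ≠ y → f.eval ((h : ℤ) - y) ≠ 0) →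
            ¬ (n + y).Prime := by
    rw [Filter.eventually_all_finset]
    intro S hS
    exact hr S (Finset.mem_filter.1 hS).2
  filter_upwards [h2, eventually_gt_atTop 3] with N hN hN3
  intro f hD hadm hA a ha
  have hlog : 0 < Real.log N := Real.log_pos (by exact_mod_cast (by omega : 1 < N))
  have heval : ∀ x : ℤ, (∏ i, f i).eval x = ∏ i, (f i).eval x := fun x => eval_prod _ _ _
  have hN' : ∀ S ∈ T.powerset.filter (fun S => K ≤ S.card),
      ∃ H ⊆ S, m ≤ H.card ∧ ∃ T : Finset ℕ, (N : ℝ) ≤ Real.log N ^ B * T.card ∧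
        ∀ n ∈ T, N < n ∧ n + S.sup id ≤ 2 * N ∧
          (∀ h ∈ H, (n + h).Prime ∧ n + h ≡ a [MOD q] ∧
            APZ r ((N : ℝ) ^ δ) ((∏ i, f i).eval ((n + h : ℕ) : ℤ))) := by
    intro S hS
    obtain ⟨H, h3, h4, U, h5, h6⟩ := hN S hS (∏ i, f i) (by
        refine (natDegree_prod_le _ _).trans ?_
        refine (Finset.sum_le_sum fun i _ => hD i).trans ?_
        rw [Finset.sum_const, Finset.card_univ, Fintype.card_fin, smul_eq_mul])
      (by
        intro p hp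
        obtain ⟨n, hn, hn'⟩ := hadm p hp
        have hpZ := Nat.prime_iff_prime_int.1 hp
        refine ⟨n, fun h => ?_⟩
        rw [heval] at h
        rcases hpZ.dvd_or_dvd h with h1 | h1
        · exact hn h1
        · obtain ⟨i, -, h2⟩ := (hpZ.dvd_finsetProd_iff _).1 h1
          exact hn' i h2)
      (by
        intro x hx
        rw [heval, Finset.abs_prod]
        calc ∏ i, |(f i).eval x| ≤ ∏ _i : Fin s, (N : ℤ) ^ A :=
              Finset.prod_le_prod (fun _ _ => abs_nonneg _) fun i _ => hA i x hx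
          _ = (N : ℤ) ^ (s * A) := by
              rw [Finset.prod_const, Finset.card_univ, Fintype.card_fin, ← pow_mul, mul_comm])
      a (by
        intro p hp hpq h
        obtain ⟨h0, h0'⟩ := ha p hp hpq
        have hpZ := Nat.prime_iff_prime_int.1 hp
        rw [heval] at h
        rcases hpZ.dvd_or_dvd h with h1 | h1
        · exact h0 h1
        · obtain ⟨i, -, h2⟩ := (hpZ.dvd_finsetProd_iff _).1 h1
          exact h0' i h2)
    exact ⟨H, h3, h4, U, h5, fun n hn => ⟨(h6 n hn).1, (h6 n hn).2.1, (h6 n hn).2.2.1⟩⟩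
  have key := Pool.Agent.Helper32K9.Str.proportion hm hmK' T ((le_max_left _ _).trans hT)
    (fun H => ∃ S ⊆ T, H ⊆ S ∧ ∃ T : Finset ℕ, (N : ℝ) ≤ Real.log N ^ B * T.card ∧
        ∀ n ∈ T, N < n ∧ n + S.sup id ≤ 2 * N ∧
          (∀ h ∈ H, (n + h).Prime ∧ n + h ≡ a [MOD q] ∧
            APZ r ((N : ℝ) ^ δ) ((∏ i, f i).eval ((n + h : ℕ) : ℤ))))
    (fun H => (N : ℝ) / Real.log N ^ B ≤ (clusters f N q a r δ H).ncard) ?_ ?_
  · exact key.trans (Nat.mul_le_mul_right _ (le_max_right _ _))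
  · intro S hS hSK
    obtain ⟨H, h3, h4, h5⟩ := hN' S (Finset.mem_filter.2 ⟨Finset.mem_powerset.2 hS, by omega⟩)
    exact ⟨H, h3, h4, S, hS, h3, h5⟩
  · rintro H H' ⟨S, hS, hHS, U, h4, h5⟩ hH' hcard _
    have h7 : H'.sup id ≤ S.sup id := Finset.sup_mono (hH'.trans hHS)
    have hsub : (U : Set ℕ) ⊆ clusters f N q a r δ H' := by
      intro n hn
      obtain ⟨g1, g2, g3⟩ := h5 n (Finset.mem_coe.1 hn)
      refine ⟨g1, by omega, fun h hh => ?_⟩
      obtain ⟨g4, g5, g6⟩ := g3 h (hH' hh)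
      refine ⟨g4, g5, fun i => ?_⟩
      have hdvd : (f i).eval ((n + h : ℕ) : ℤ) ∣ (∏ i, f i).eval ((n + h : ℕ) : ℤ) := by
        rw [heval]
        exact Finset.dvd_prod_of_mem (fun i => (f i).eval ((n + h : ℕ) : ℤ)) (Finset.mem_univ i)
      refine ⟨fun h0 => g6.1 ?_, almost_of_dvd g6 ?_⟩
      · rw [h0] at hdvd
        exact zero_dvd_iff.1 hdvd
      · exact (Int.natAbs_dvd.2 hdvd)
    have h8 : U.card ≤ (clusters f N q a r δ H').ncard := by
      rw [← Set.ncard_coe_finset U]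
      exact Set.ncard_le_ncard hsub (clusters_finite f N q a r δ H')
    have h9 : (U.card : ℝ) ≤ (clusters f N q a r δ H').ncard := by exact_mod_cast h8
    rw [div_le_iff₀ (by positivity)]
    nlinarith [pow_pos hlog B]

end Pool.Agent.U163.SU
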